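import Pool.Agent.Lib.MP_0f05cd_nt.Edge

namespace Pool.Agent.Lib.MP_0f05cd_nt

open Finset

open Classical in
/-- the elements of U in [1, X] -/
noncomputable def win (U : Set ℤ) (X : ℤ) : Finset ℤ := (Icc 1 X).filter (· ∈ U)

lemma mem_win {U : Set ℤ} {X z : ℤ} : z ∈ win U X ↔ 1 ≤ z ∧ z ≤ X ∧ z ∈ U := by
  simp [win, and_assoc]

lemma win_mono {U : Set ℤ} {X Y : ℤ} (h : X ≤ Y) : win U X ⊆ win U Y := by
  intro z hz
  rw [mem_win] at *
  exact ⟨hz.1, hz.2.1.trans h, hz.2.2⟩

/-- the fibre over the i-th base point -/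
noncomputable def fib (U : Set ℤ) (b : ℕ → ℤ) (gs : List ℤ) (X : ℤ) (i : ℕ) : Finset ℤ :=
  (sp gs 1).filter (fun l => b i + l ∈ win U X)

lemma step (U : Set ℤ) (hpos : ∀ u ∈ U, 1 ≤ u)
    (hU : ∀ a ∈ U, ∀ b ∈ U, a ≠ b → a + b ∈ U ∨ ∃ x ∈ U, ∃ y ∈ U, x + y = a + b ∧ x ≠ a ∧ x ≠ b)
    (k L L0 K f s M n : ℕ) (b : ℕ → ℤ) (X : ℤ) (gs : List ℤ)
    (hbU : ∀ i < k, b i ∈ U ∧ b i ≤ X)
    (hb : ∀ c : ℕ → ℤ, (∀ i, |c i| ≤ 2 * ((4 * L + 2 : ℕ) : ℤ)) → ∑ i ∈ range k, c i * b i = 0 →
      ∀ i ∈ range k, c i = 0)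
    (hn : (win U (2 * X)).card ≤ n) (hL : 2 * n < 2 ^ L)
    (hL0 : (2 * ((4 * L + 2) * L0) + 1) ^ gs.length < 2 ^ L0)
    (hk : 2 * s + (4 * L + 2) * L0 + f ≤ k) (hf : n < K * (f + 1))
    (hs : n + 32 * n * L * (L + M) < s ^ 2) :
    ∃ g : ℤ, ∑ i ∈ range k, min (fib U b gs X i).card K + (M + 1) ≤
      ∑ i ∈ range k, min (fib U b (g :: gs) (2 * X) i).card K := by
  classical
  have hL1 : 1 ≤ L := by
    rcases Nat.eq_zero_or_pos L with h | h
    · subst h
      have : n = 0 := by simp at hL; omega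
      subst this
      have hs0 : s ≠ 0 := by rintro rfl; simp at hs
      have hk0 : 0 < k := by omega
      have h1 := hbU 0 hk0
      have h2 := hpos _ h1.1
      have : b 0 ∈ win U (2 * X) := mem_win.mpr ⟨h2, by omega, h1.1⟩
      have := card_pos.mpr ⟨_, this⟩
      omega
    · exact h
  obtain ⟨G, hGk, hGc, hG⟩ := exists_good k (4 * L + 2) L0 b gs hb hL0
  have hX : ∀ i < k, 1 ≤ X := fun i hi => (hpos _ (hbU i hi).1).trans (hbU i hi).2
  have hGlt : ∀ i ∈ G, i < k := fun i hi => mem_range.mp (hGk hi)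
  set F : ℕ → Finset ℤ := fib U b gs X with hF
  have hF0 : ∀ i < k, (0 : ℤ) ∈ F i := by
    intro i hi
    simp only [hF, fib, mem_filter, add_zero]
    exact ⟨sp_zero _ _, mem_win.mpr ⟨hpos _ (hbU i hi).1, (hbU i hi).2, (hbU i hi).1⟩⟩
  have hFsp : ∀ i, ∀ l ∈ F i, l ∈ sp gs 1 := fun i l hl => (mem_filter.mp hl).1
  have hFwin : ∀ i, ∀ l ∈ F i, b i + l ∈ win U X := fun i l hl => (mem_filter.mp hl).2
  -- frozen indices are few
  set Fr := G.filter (fun i => K ≤ (F i).card) with hFr
  have hFrc : Fr.card ≤ f := by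
    have h1 : (Fr.sigma F).card ≤ (win U X).card := by
      apply card_le_card_of_injOn (fun p => b p.1 + p.2)
      · intro p hp
        exact hFwin _ _ (mem_sigma.mp hp).2
      · rintro ⟨i, l⟩ hp ⟨i', l'⟩ hp' h
        simp only [coe_sigma, Set.mem_sigma_iff, mem_coe] at hp hp' h
        have hi : i ∈ G := (mem_filter.mp hp.1).1
        have hi' : i' ∈ G := (mem_filter.mp hp'.1).1
        have hz := hG (fun t => dl i t - dl i' t) ?_ ?_ i hi
        · have : i = i' := by
            by_contra hne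
            simp [dl, hne] at hz
          subst this
          have : l = l' := by omega
          subst this
          rfl
        · have a3 := sum_dl_abs G i
          have a4 := sum_dl_abs G i'
          calc ∑ t ∈ G, (dl i t - dl i' t).natAbs
              ≤ ∑ t ∈ G, ((dl i t).natAbs + (dl i' t).natAbs) :=
                sum_le_sum (fun t _ => Int.natAbs_sub_le _ _)
            _ ≤ 4 * L + 2 := by rw [sum_add_distrib]; omega
        · simp only [sub_mul, sum_sub_distrib, sum_dl_mul G b i hi, sum_dl_mul G b i' hi']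
          have e : b i - b i' = l' + -l := by omega
          rw [e]
          exact sp_mono (by omega) (sp_add (hFsp _ _ hp'.2) (sp_neg (hFsp _ _ hp.2)))
    rw [card_sigma] at h1
    have h2 : Fr.card • K ≤ ∑ i ∈ Fr, (F i).card :=
      card_nsmul_le_sum _ _ _ (fun i hi => (mem_filter.mp hi).2)
    rw [smul_eq_mul] at h2
    rcases Nat.eq_zero_or_pos Fr.card with h0 | h0
    · omega
    obtain ⟨i, hi⟩ := card_pos.mp h0
    have h3 : (win U X).card ≤ (win U (2 * X)).card :=
      card_le_card (win_mono (by have := hX i (hGlt i (mem_filter.mp hi).1); omega))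
    by_contra hc
    have : (f + 1) * K ≤ Fr.card * K := Nat.mul_le_mul_right _ (by omega)
    nlinarith
  set I := G.filter (fun i => ¬ K ≤ (F i).card) with hI
  have hIc : 2 * s ≤ I.card := by
    have : Fr.card + I.card = G.card :=
      card_filter_add_card_filter_not (s := G) (fun i => K ≤ (F i).card)
    omega
  have hIG : I ⊆ G := filter_subset _ _
  have hIlt : ∀ i ∈ I, i < k := fun i hi => hGlt i (hIG hi)
  -- tops of fibres
  set t : ℕ → ℤ := fun i => if h : (F i).Nonempty then (F i).max' h else 0 with ht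
  have htF : ∀ i < k, t i ∈ F i := by
    intro i hi
    have hne : (F i).Nonempty := ⟨0, hF0 i hi⟩
    simp only [ht, dif_pos hne]
    exact max'_mem _ _
  have htmax : ∀ i, ∀ l ∈ F i, l ≤ t i := by
    intro i l hl
    have hne : (F i).Nonempty := ⟨l, hl⟩
    simp only [ht, dif_pos hne]
    exact le_max' _ _ hl
  set w : ℕ → ℤ := fun i => b i + t i with hw
  have hwwin : ∀ i ∈ I, w i ∈ win U X := fun i hi => hFwin i _ (htF i (hIlt i hi))
  have hwd : ∀ c : ℕ → ℤ, ∑ i ∈ I, (c i).natAbs ≤ 4 * L + 2 → ∑ i ∈ I, c i * w i = 0 →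
      ∀ i ∈ I, c i = 0 := by
    intro c hc1 hc2 i hi
    have hz := hG (fun i => if i ∈ I then c i else 0) ?_ ?_ i (hIG hi)
    · simpa [hi] using hz
    · rw [← sum_subset hIG]
      · refine le_trans (le_of_eq ?_) hc1
        apply sum_congr rfl
        intro j hj
        simp [hj]
      · intro j _ hj
        simp [hj]
    · rw [← sum_subset hIG]
      · have e1 : ∑ j ∈ I, (if j ∈ I then c j else 0) * b j = -∑ j ∈ I, c j * t j := by
          rw [eq_neg_iff_add_eq_zero, ← sum_add_distrib, ← hc2]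
          apply sum_congr rfl
          intro j hj
          simp only [hj, if_true, hw]
          ring
        rw [e1]
        exact sp_neg (sp_mono hc1 (sp_sum I t c (fun j hj => hFsp j _ (htF j (hIlt j hj)))))
      · intro j _ hj
        simp [hj]
  set V := win U (2 * X) with hV
  obtain ⟨I1, hI1, hI1c⟩ := exists_subset_card_eq (s := I) (n := s) (by omega)
  obtain ⟨I2, hI2, hI2c⟩ := exists_subset_card_eq (s := I \ I1) (n := s)
    (by rw [card_sdiff_of_subset hI1]; omega)
  have hI2I : I2 ⊆ I := hI2.trans sdiff_subset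
  have hdisj : ∀ i ∈ I1, ∀ j ∈ I2, i ≠ j := by
    rintro i hi j hj rfl
    exact (mem_sdiff.mp (hI2 hj)).2 hi
  -- a popular shift
  obtain ⟨g, hg0, hg⟩ : ∃ g : ℤ, 0 < g ∧ M < (I.filter (fun i => w i + g ∈ V)).card := by
    by_contra hc
    push Not at hc
    have hZ : (V ∪ V.image (fun z => -z)).card ≤ 2 * n := by
      have h1 := card_union_le V (V.image (fun z => -z))
      have h2 : (V.image (fun z => -z)).card ≤ V.card := card_image_le
      omega
    have h1 := edge_bound I w V L M hwd hc (V ∪ V.image (fun z => -z)) (by omega)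
      ((I1 ×ˢ I2).filter (fun e => w e.1 + w e.2 ∉ U)) (by
        intro e he
        obtain ⟨he1, he2⟩ := mem_filter.mp he
        obtain ⟨a1, a2⟩ := mem_product.mp he1
        have b1 := mem_win.mp (hwwin _ (hI1 a1))
        have b2 := mem_win.mp (hwwin _ (hI2I a2))
        have hne : w e.1 ≠ w e.2 := by
          intro h
          have hz := hwd (fun t => dl e.1 t - dl e.2 t) ?_ ?_ e.1 (hI1 a1)
          · simp [dl, hdisj _ a1 _ a2] at hz
          · have a3 := sum_dl_abs I e.1
            have a4 := sum_dl_abs I e.2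
            calc ∑ t ∈ I, (dl e.1 t - dl e.2 t).natAbs
                ≤ ∑ t ∈ I, ((dl e.1 t).natAbs + (dl e.2 t).natAbs) :=
                  sum_le_sum (fun t _ => Int.natAbs_sub_le _ _)
              _ ≤ 4 * L + 2 := by rw [sum_add_distrib]; omega
          · simp only [sub_mul, sum_sub_distrib, sum_dl_mul I w _ (hI1 a1),
              sum_dl_mul I w _ (hI2I a2), h, sub_self]
        rcases hU _ b1.2.2 _ b2.2.2 hne with h | ⟨x, hx, y, hy, hxy, hx1, hx2⟩
        · exact absurd h he2
        · have := hpos x hx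
          have := hpos y hy
          have hxV : x ∈ V := mem_win.mpr ⟨by omega, by omega, hx⟩
          have hyV : y ∈ V := mem_win.mpr ⟨by omega, by omega, hy⟩
          exact ⟨hI1 a1, hI2I a2, x, hxV, y, hyV, mem_union_left _ hxV,
            mem_union_right _ (mem_image_of_mem _ hyV), hxy, hx1, hx2⟩)
    have h2 : ((I1 ×ˢ I2).filter (fun e => ¬ (w e.1 + w e.2 ∉ U))).card ≤ V.card := by
      apply card_le_card_of_injOn (fun e => w e.1 + w e.2)
      · intro e he
        obtain ⟨he1, he2⟩ := mem_filter.mp he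
        obtain ⟨a1, a2⟩ := mem_product.mp he1
        have b1 := mem_win.mp (hwwin _ (hI1 a1))
        have b2 := mem_win.mp (hwwin _ (hI2I a2))
        exact mem_win.mpr ⟨by simp only; omega, by simp only; omega, not_not.mp he2⟩
      · rintro ⟨i, i'⟩ he ⟨j, j'⟩ he' h
        obtain ⟨a1, a2⟩ := mem_product.mp (mem_filter.mp he).1
        obtain ⟨a3, a4⟩ := mem_product.mp (mem_filter.mp he').1
        simp only at a1 a2 a3 a4 h
        have hz := hwd (fun t => dl i t + dl i' t - dl j t - dl j' t) ?_ ?_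
        · have z1 := hz i (hI1 a1)
          have z2 := hz i' (hI2I a2)
          have n1 := hdisj _ a1 _ a2
          have n2 := hdisj _ a1 _ a4
          have n3 := (hdisj _ a3 _ a2).symm
          have e1 : i = j := by
            by_contra hne
            simp [dl, n1, n2, hne] at z1
          have e2 : i' = j' := by
            by_contra hne
            simp [dl, n1.symm, n3, hne] at z2
          rw [e1, e2]
        · have c1 := sum_dl_abs I i
          have c2 := sum_dl_abs I i'
          have c3 := sum_dl_abs I j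
          have c4 := sum_dl_abs I j'
          calc ∑ t ∈ I, (dl i t + dl i' t - dl j t - dl j' t).natAbs
              ≤ ∑ t ∈ I, ((dl i t).natAbs + (dl i' t).natAbs + (dl j t).natAbs
                + (dl j' t).natAbs) := by
                apply sum_le_sum
                intro t _
                omega
            _ ≤ 4 * L + 2 := by simp only [sum_add_distrib]; omega
        · simp only [sub_mul, add_mul, sum_sub_distrib, sum_add_distrib, sum_dl_mul I w _ (hI1 a1),
            sum_dl_mul I w _ (hI2I a2), sum_dl_mul I w _ (hI1 a3), sum_dl_mul I w _ (hI2I a4)]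
          omega
    have h3 := card_filter_add_card_filter_not (s := I1 ×ˢ I2) (fun e => w e.1 + w e.2 ∉ U)
    rw [card_product, hI1c, hI2c] at h3
    have h4 : 2 * (V ∪ V.image (fun z => -z)).card * (2 * L * (2 * (2 * L + 2 * M)))
        ≤ 2 * (2 * n) * (2 * L * (2 * (2 * L + 2 * M))) :=
      Nat.mul_le_mul_right _ (Nat.mul_le_mul_left _ hZ)
    have h5 : 2 * (2 * n) * (2 * L * (2 * (2 * L + 2 * M))) = 32 * n * L * (L + M) := by ring
    have h6 : s ^ 2 = s * s := by ring
    omega
  refine ⟨g, ?_⟩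
  set J := I.filter (fun i => w i + g ∈ V) with hJ
  have hJk : J ⊆ range k := fun i hi => hGk (hIG (mem_filter.mp hi).1)
  have hsub : ∀ i ∈ range k, F i ⊆ fib U b (g :: gs) (2 * X) i := by
    intro i hi l hl
    have := hX i (mem_range.mp hi)
    exact mem_filter.mpr ⟨sp_cons_of (hFsp i l hl), win_mono (by omega) (hFwin i l hl)⟩
  calc ∑ i ∈ range k, min (F i).card K + (M + 1)
      ≤ ∑ i ∈ range k, min (F i).card K + ∑ i ∈ range k, (if i ∈ J then 1 else 0) := by
        rw [← card_filter, filter_mem_eq_inter, inter_eq_right.mpr hJk]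
        omega
    _ ≤ _ := by
        rw [← sum_add_distrib]
        apply sum_le_sum
        intro i hi
        split_ifs with hiJ
        · obtain ⟨hiI, hiV⟩ := mem_filter.mp hiJ
          have hlt : (F i).card < K := not_le.mp (mem_filter.mp hiI).2
          have : (F i).card < (fib U b (g :: gs) (2 * X) i).card := by
            apply card_lt_card
            refine ⟨hsub i hi, fun hc => ?_⟩
            have h1 : t i + g ∈ fib U b (g :: gs) (2 * X) i := by
              refine mem_filter.mpr ⟨sp_cons_add (hFsp i _ (htF i (mem_range.mp hi))), ?_⟩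
              rw [← add_assoc]
              exact hiV
            have := htmax i _ (hc h1)
            omega
          omega
        · have := card_le_card (hsub i hi)
          omega

lemma core (U : Set ℤ) (hpos : ∀ u ∈ U, 1 ≤ u)
    (hU : ∀ a ∈ U, ∀ b ∈ U, a ≠ b → a + b ∈ U ∨ ∃ x ∈ U, ∃ y ∈ U, x + y = a + b ∧ x ≠ a ∧ x ≠ b)
    (k L L0 K f s M n R : ℕ) (b : ℕ → ℤ) (X : ℤ) (hX : 0 ≤ X)
    (hbU : ∀ i < k, b i ∈ U ∧ b i ≤ X)
    (hb : ∀ c : ℕ → ℤ, (∀ i, |c i| ≤ 2 * ((4 * L + 2 : ℕ) : ℤ)) → ∑ i ∈ range k, c i * b i = 0 →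
      ∀ i ∈ range k, c i = 0)
    (hn : (win U (2 ^ R * X)).card ≤ n) (hL : 2 * n < 2 ^ L)
    (hL0 : (2 * ((4 * L + 2) * L0) + 1) ^ R < 2 ^ L0)
    (hk : 2 * s + (4 * L + 2) * L0 + f ≤ k) (hf : n < K * (f + 1))
    (hs : n + 32 * n * L * (L + M) < s ^ 2) : R * (M + 1) ≤ k * K := by
  have key : ∀ r ≤ R, ∃ gs : List ℤ, gs.length = r ∧
      r * (M + 1) ≤ ∑ i ∈ range k, min (fib U b gs (2 ^ r * X) i).card K := by
    intro r
    induction r with
    | zero => intro _; exact ⟨[], rfl, by simp⟩
    | succ r ih =>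
      intro hr
      obtain ⟨gs, hgs, hsum⟩ := ih (by omega)
      have hpow : (2 : ℤ) ^ (r + 1) ≤ 2 ^ R := pow_le_pow_right₀ (by norm_num) hr
      have hone : (1 : ℤ) ≤ 2 ^ r := one_le_pow₀ (by norm_num)
      have e : (2 : ℤ) ^ (r + 1) * X = 2 * (2 ^ r * X) := by ring
      obtain ⟨g, hg⟩ := step U hpos hU k L L0 K f s M n b (2 ^ r * X) gs
        (fun i hi => ⟨(hbU i hi).1, (hbU i hi).2.trans (le_mul_of_one_le_left hX hone)⟩) hb
        ((card_le_card (win_mono (by rw [← e]; exact mul_le_mul_of_nonneg_right hpow hX))).trans hn)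
        hL (lt_of_le_of_lt (Nat.pow_le_pow_right (by omega) (by omega)) hL0) hk hf hs
      refine ⟨g :: gs, by simp [hgs], ?_⟩
      rw [e, add_mul]
      omega
  obtain ⟨gs, _, h⟩ := key R le_rfl
  refine h.trans ?_
  refine (sum_le_card_nsmul _ _ K (fun i _ => min_le_right _ _)).trans ?_
  simp

end Pool.Agent.Lib.MP_0f05cd_nt
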