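import Mathlib

namespace Pool.Agent.Lib.MP_0f05cd_nt

/-- u lists Ulam's sequence, indexed from 0: u 0 = 1, u 1 = 2, and for n ≥ 1 the term u (n+1) is
the least m > u n with exactly one pair of indices i < j ≤ n such that m = u i + u j. -/
def IsUlam (u : ℕ → ℕ) : Prop :=
  u 0 = 1 ∧ u 1 = 2 ∧ ∀ n : ℕ, 1 ≤ n →
    IsLeast {m : ℕ | u n < m ∧ ∃! p : ℕ × ℕ, p.1 < p.2 ∧ p.2 ≤ n ∧ m = u p.1 + u p.2} (u (n + 1))

end Pool.Agent.Lib.MP_0f05cd_nt
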