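import Pool.Agent.Lib.MP_0f05cd_nt.Span

namespace Pool.Agent.Lib.MP_0f05cd_nt

open Finset

/-- z is within formal distance m of ρ -/
def Near (I : Finset ℕ) (w : ℕ → ℤ) (ρ : ℤ) (m : ℕ) (z : ℤ) : Prop :=
  ∃ φ : ℕ → ℤ, ∑ i ∈ I, (φ i).natAbs ≤ m ∧ z = ρ + ∑ i ∈ I, φ i * w i

def dl (i : ℕ) : ℕ → ℤ := fun t => if t = i then 1 else 0

lemma sum_dl_abs (I : Finset ℕ) (i : ℕ) : ∑ t ∈ I, (dl i t).natAbs ≤ 1 := by
  have : ∀ t, (dl i t).natAbs = if t = i then 1 else 0 := by
    intro t; unfold dl; split_ifs <;> rfl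
  simp only [this, sum_ite_eq']
  split_ifs <;> omega

lemma sum_dl_mul (I : Finset ℕ) (w : ℕ → ℤ) (i : ℕ) (hi : i ∈ I) :
    ∑ t ∈ I, dl i t * w t = w i := by
  simp [dl, hi]

lemma Near.add_w {I : Finset ℕ} {w : ℕ → ℤ} {ρ z : ℤ} {m i : ℕ} (h : Near I w ρ m z)
    (hi : i ∈ I) : Near I w ρ (m + 1) (z + w i) := by
  obtain ⟨φ, h1, h2⟩ := h
  refine ⟨fun t => φ t + dl i t, ?_, ?_⟩
  · have := sum_dl_abs I i
    calc ∑ t ∈ I, (φ t + dl i t).natAbs ≤ ∑ t ∈ I, ((φ t).natAbs + (dl i t).natAbs) :=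
          sum_le_sum (fun t _ => Int.natAbs_add_le _ _)
      _ ≤ m + 1 := by rw [sum_add_distrib]; omega
  · simp only [add_mul, sum_add_distrib, sum_dl_mul I w i hi, h2]; ring

lemma Near.sub_w {I : Finset ℕ} {w : ℕ → ℤ} {ρ z : ℤ} {m i : ℕ} (h : Near I w ρ m z)
    (hi : i ∈ I) : Near I w ρ (m + 1) (z - w i) := by
  obtain ⟨φ, h1, h2⟩ := h
  refine ⟨fun t => φ t - dl i t, ?_, ?_⟩
  · have := sum_dl_abs I i
    calc ∑ t ∈ I, (φ t - dl i t).natAbs ≤ ∑ t ∈ I, ((φ t).natAbs + (dl i t).natAbs) :=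
          sum_le_sum (fun t _ => Int.natAbs_sub_le _ _)
      _ ≤ m + 1 := by rw [sum_add_distrib]; omega
  · simp only [sub_mul, sum_sub_distrib, sum_dl_mul I w i hi, h2]; ring

lemma Near.mono {I : Finset ℕ} {w : ℕ → ℤ} {ρ z : ℤ} {m m' : ℕ} (h : Near I w ρ m z)
    (hm : m ≤ m') : Near I w ρ m' z := by
  obtain ⟨φ, h1, h2⟩ := h
  exact ⟨φ, h1.trans hm, h2⟩

/-- the pair e has another representation with both ends in Z -/
def Rep (I : Finset ℕ) (w : ℕ → ℤ) (V Z : Finset ℤ) (e : ℕ × ℕ) : Prop :=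
  e.1 ∈ I ∧ e.2 ∈ I ∧ ∃ x ∈ V, ∃ y ∈ V, x ∈ Z ∧ -y ∈ Z ∧ x + y = w e.1 + w e.2 ∧
    x ≠ w e.1 ∧ x ≠ w e.2

lemma piece_bound (I : Finset ℕ) (w : ℕ → ℤ) (V : Finset ℤ) (l M : ℕ)
    (hw : ∀ c : ℕ → ℤ, ∑ i ∈ I, (c i).natAbs ≤ 2 * l + 2 → ∑ i ∈ I, c i * w i = 0 →
      ∀ i ∈ I, c i = 0)
    (hM : ∀ g : ℤ, 0 < g → (I.filter (fun i => w i + g ∈ V)).card ≤ M)
    (ρ : ℤ) (P : Finset ℤ) (hP : ∀ z ∈ P, Near I w ρ l z)
    (E : Finset (ℕ × ℕ)) (hE : ∀ e ∈ E, Rep I w V P e) :
    E.card ≤ P.card * (l * (2 * (l + 2 * M))) := by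
  classical
  choose! φ hφ1 hφ2 using hP
  set S : ℤ → Finset ℕ := fun z => I.filter (fun i => φ z i ≠ 0) with hS
  have hScard : ∀ z ∈ P, (S z).card ≤ l := fun z hz => (card_support_le I (φ z)).trans (hφ1 z hz)
  set Pop : ℤ → Finset ℕ := fun g => if 0 < g then I.filter (fun i => w i + g ∈ V) else ∅
    with hPop
  have hPopc : ∀ g, (Pop g).card ≤ M := by
    intro g
    simp only [hPop]
    split_ifs with hg
    · exact hM g hg
    · simp
  set N : ℤ → ℕ → Finset ℕ := fun z j => S z ∪ Pop (w j + z) ∪ Pop (w j - z) with hN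
  have hNc : ∀ z ∈ P, ∀ j, (N z j).card ≤ l + 2 * M := by
    intro z hz j
    have h1 := card_union_le (S z ∪ Pop (w j + z)) (Pop (w j - z))
    have h2 := card_union_le (S z) (Pop (w j + z))
    have := hScard z hz
    have := hPopc (w j + z)
    have := hPopc (w j - z)
    simp only [hN]
    omega
  have hsub : E ⊆ P.biUnion (fun z => (S z).biUnion
      (fun j => ({j} ×ˢ N z j) ∪ (N z j ×ˢ {j}))) := by
    intro e he
    obtain ⟨h1, h2, x, hxV, y, hyV, hxP, hyP, hsum, hx1, hx2⟩ := hE e he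
    obtain ⟨i, i'⟩ := e
    simp only at h1 h2 hsum hx1 hx2
    have hz := hw (fun t => φ x t - φ (-y) t - dl i t - dl i' t) ?_ ?_
    · have hi : i ∈ S x ∨ i ∈ S (-y) := by
        have := hz i h1
        simp only [hS, mem_filter]
        by_contra hc
        push Not at hc
        rw [hc.1 h1, hc.2 h1] at this
        simp only [dl] at this
        split_ifs at this <;> omega
      have hi' : i' ∈ S x ∨ i' ∈ S (-y) := by
        have := hz i' h2
        simp only [hS, mem_filter]
        by_contra hc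
        push Not at hc
        rw [hc.1 h2, hc.2 h2] at this
        simp only [dl] at this
        split_ifs at this <;> omega
      have mk1 : ∀ z ∈ P, i ∈ S z → i' ∈ N z i → (i, i') ∈ P.biUnion (fun z => (S z).biUnion
          (fun j => ({j} ×ˢ N z j) ∪ (N z j ×ˢ {j}))) := by
        intro z hz h3 h4
        exact mem_biUnion.mpr ⟨z, hz, mem_biUnion.mpr ⟨i, h3,
          mem_union_left _ (mem_product.mpr ⟨mem_singleton_self _, h4⟩)⟩⟩
      have mk2 : ∀ z ∈ P, i' ∈ S z → i ∈ N z i' → (i, i') ∈ P.biUnion (fun z => (S z).biUnion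
          (fun j => ({j} ×ˢ N z j) ∪ (N z j ×ˢ {j}))) := by
        intro z hz h3 h4
        exact mem_biUnion.mpr ⟨z, hz, mem_biUnion.mpr ⟨i', h3,
          mem_union_right _ (mem_product.mpr ⟨h4, mem_singleton_self _⟩)⟩⟩
      have inP : ∀ g : ℤ, 0 < g → ∀ t ∈ I, w t + g ∈ V → t ∈ Pop g := by
        intro g hg t ht hv
        simp only [hPop, if_pos hg]
        exact mem_filter.mpr ⟨ht, hv⟩
      rcases hi with hi | hi <;> rcases hi' with hi' | hi'
      · exact mk1 x hxP hi (mem_union_left _ (mem_union_left _ hi'))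
      · rcases lt_or_gt_of_ne hx1 with hlt | hlt
        · apply mk1 x hxP hi
          apply mem_union_right
          apply inP _ (by omega) _ h2
          have : w i' + (w i - x) = y := by omega
          rwa [this]
        · apply mk2 (-y) hyP hi'
          apply mem_union_left
          apply mem_union_right
          apply inP _ (by omega) _ h1
          have : w i + (w i' + -y) = x := by omega
          rwa [this]
      · rcases lt_or_gt_of_ne hx2 with hlt | hlt
        · apply mk2 x hxP hi'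
          apply mem_union_right
          apply inP _ (by omega) _ h1
          have : w i + (w i' - x) = y := by omega
          rwa [this]
        · apply mk1 (-y) hyP hi
          apply mem_union_left
          apply mem_union_right
          apply inP _ (by omega) _ h2
          have : w i' + (w i + -y) = x := by omega
          rwa [this]
      · exact mk1 (-y) hyP hi (mem_union_left _ (mem_union_left _ hi'))
    · have a1 := hφ1 x hxP
      have a2 := hφ1 (-y) hyP
      have a3 := sum_dl_abs I i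
      have a4 := sum_dl_abs I i'
      calc ∑ t ∈ I, (φ x t - φ (-y) t - dl i t - dl i' t).natAbs
          ≤ ∑ t ∈ I, ((φ x t).natAbs + (φ (-y) t).natAbs + (dl i t).natAbs + (dl i' t).natAbs) := by
            apply sum_le_sum
            intro t _
            omega
        _ ≤ 2 * l + 2 := by
            simp only [sum_add_distrib]; omega
    · simp only [sub_mul, sum_sub_distrib, sum_dl_mul I w i h1, sum_dl_mul I w i' h2]
      have a1 := hφ2 x hxP
      have a2 := hφ2 (-y) hyP
      omega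
  refine (card_le_card hsub).trans ?_
  refine card_biUnion_le.trans ?_
  rw [← smul_eq_mul]
  apply sum_le_card_nsmul
  intro z hz
  refine card_biUnion_le.trans ?_
  refine (sum_le_card_nsmul _ _ (2 * (l + 2 * M)) ?_).trans ?_
  · intro j _
    refine (card_union_le _ _).trans ?_
    rw [card_product, card_product, card_singleton]
    have := hNc z hz j
    omega
  · rw [smul_eq_mul]
    exact Nat.mul_le_mul_right _ (hScard z hz)

lemma edge_bound (I : Finset ℕ) (w : ℕ → ℤ) (V : Finset ℤ) (L M : ℕ)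
    (hw : ∀ c : ℕ → ℤ, ∑ i ∈ I, (c i).natAbs ≤ 4 * L + 2 → ∑ i ∈ I, c i * w i = 0 →
      ∀ i ∈ I, c i = 0)
    (hM : ∀ g : ℤ, 0 < g → (I.filter (fun i => w i + g ∈ V)).card ≤ M)
    (Z : Finset ℤ) (hZ : Z.card < 2 ^ L)
    (E : Finset (ℕ × ℕ)) (hE : ∀ e ∈ E, Rep I w V Z e) :
    E.card ≤ 2 * Z.card * (2 * L * (2 * (2 * L + 2 * M))) := by
  classical
  induction hn : Z.card using Nat.strong_induction_on generalizing Z E with
  | _ n ih =>
    rcases Z.eq_empty_or_nonempty with rfl | ⟨ρ, hρ⟩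
    · have : E = ∅ := by
        rw [eq_empty_iff_forall_notMem]
        intro e he
        obtain ⟨_, _, x, _, y, _, hx, _⟩ := hE e he
        simp at hx
      simp [this]
    set B : ℕ → Finset ℤ := fun j => Z.filter (Near I w ρ (2 * j)) with hB
    have hρB : ∀ j, ρ ∈ B j := fun j =>
      mem_filter.mpr ⟨hρ, fun _ => 0, by simp, by simp⟩
    obtain ⟨j, hjL, hj⟩ : ∃ j < L, (B (j + 1)).card ≤ 2 * (B j).card := by
      by_contra hc
      push Not at hc
      have : ∀ j ≤ L, 2 ^ j ≤ (B j).card := by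
        intro j
        induction j with
        | zero => intro _; exact card_pos.mpr ⟨ρ, hρB 0⟩
        | succ j ihj =>
          intro hj
          have := ihj (by omega)
          have := hc j (by omega)
          rw [pow_succ]; omega
      have h1 := this L le_rfl
      have h2 : (B L).card ≤ Z.card := card_filter_le _ _
      omega
    have hBZ : B j ⊆ Z := filter_subset _ _
    have hcard : (Z \ B j).card + (B j).card = Z.card := card_sdiff_add_card_eq_card hBZ
    have hpos : 0 < (B j).card := card_pos.mpr ⟨ρ, hρB j⟩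
    have h2 := ih (Z \ B j).card (by omega) (Z \ B j) (by omega)
      (E.filter (Rep I w V (Z \ B j))) (fun e he => (mem_filter.mp he).2) rfl
    have h1 := piece_bound I w V (2 * L) M (by intro c hc; exact hw c (by omega)) hM ρ (B (j + 1))
      (fun z hz => (mem_filter.mp hz).2.mono (by omega))
      (E.filter (fun e => ¬ Rep I w V (Z \ B j) e)) (by
        intro e he
        obtain ⟨he1, he2⟩ := mem_filter.mp he
        obtain ⟨a1, a2, x, hxV, y, hyV, hxZ, hyZ, hsum, hx1, hx2⟩ := hE e he1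
        refine ⟨a1, a2, x, hxV, y, hyV, ?_⟩
        have hor : x ∈ B j ∨ -y ∈ B j := by
          by_contra hc
          push Not at hc
          exact he2 ⟨a1, a2, x, hxV, y, hyV, mem_sdiff.mpr ⟨hxZ, hc.1⟩,
            mem_sdiff.mpr ⟨hyZ, hc.2⟩, hsum, hx1, hx2⟩
        rcases hor with h | h
        · have hn := (mem_filter.mp h).2
          refine ⟨mem_filter.mpr ⟨hxZ, hn.mono (by omega)⟩, mem_filter.mpr ⟨hyZ, ?_⟩, hsum, hx1, hx2⟩
          have := (hn.sub_w a1).sub_w a2
          have e1 : x - w e.1 - w e.2 = -y := by omega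
          rw [e1] at this
          exact this.mono (by omega)
        · have hn := (mem_filter.mp h).2
          refine ⟨mem_filter.mpr ⟨hxZ, ?_⟩, mem_filter.mpr ⟨hyZ, hn.mono (by omega)⟩, hsum, hx1, hx2⟩
          have := (hn.add_w a1).add_w a2
          have e1 : -y + w e.1 + w e.2 = x := by omega
          rw [e1] at this
          exact this.mono (by omega))
    have h3 := card_filter_add_card_filter_not (s := E) (Rep I w V (Z \ B j))
    have h4 : (B (j + 1)).card * (2 * L * (2 * (2 * L + 2 * M)))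
        ≤ 2 * (B j).card * (2 * L * (2 * (2 * L + 2 * M))) := Nat.mul_le_mul_right _ hj
    rw [← hn, ← hcard]
    generalize 2 * L * (2 * (2 * L + 2 * M)) = T at *
    nlinarith

end Pool.Agent.Lib.MP_0f05cd_nt
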