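import Pool.Agent.Lib.MP_0f05cd_nt.Param
import Pool.Agent.Lib.MP_0f05cd_nt.Defs

namespace Pool.Agent.Lib.MP_0f05cd_nt

open Finset

lemma IsUlam.strictMono {u : ℕ → ℕ} (hu : IsUlam u) : StrictMono u := by
  apply strictMono_nat_of_lt_succ
  intro n
  rcases Nat.eq_zero_or_pos n with rfl | hn
  · rw [hu.1, hu.2.1]; norm_num
  · exact (hu.2.2 n hn).1.1

lemma IsUlam.exists_idx {u : ℕ → ℕ} (hu : IsUlam u) (y : ℕ) (hy : 2 ≤ y) :
    ∃ n, 1 ≤ n ∧ u n ≤ y ∧ y < u (n + 1) := by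
  have hex : ∃ n, y < u (n + 1) := ⟨y, lt_of_lt_of_le (Nat.lt_succ_self y) hu.strictMono.le_apply⟩
  classical
  refine ⟨Nat.find hex, ?_, ?_, Nat.find_spec hex⟩
  · rw [Nat.one_le_iff_ne_zero]
    intro h
    have := Nat.find_spec hex
    rw [h, hu.2.1] at this
    omega
  · rcases Nat.eq_zero_or_pos (Nat.find hex) with h | h
    · rw [h, hu.1]; omega
    · have := Nat.find_min hex (m := Nat.find hex - 1) (by omega)
      rw [Nat.sub_add_cancel h] at this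
      omega

lemma IsUlam.succ_le {u : ℕ → ℕ} (hu : IsUlam u) (n : ℕ) :
    u (n + 2) ≤ u n + u (n + 1) := by
  have hm := hu.strictMono
  have h0 : 0 < u n := lt_of_lt_of_le (by rw [hu.1]; norm_num) (hm.monotone (Nat.zero_le n))
  apply (hu.2.2 (n + 1) (by omega)).2
  refine ⟨by omega, (n, n + 1), ⟨by simp, by simp, rfl⟩, ?_⟩
  rintro ⟨i, j⟩ ⟨h1, h2, h3⟩
  simp only at h1 h2 h3
  have hj : j = n + 1 := by
    by_contra hne
    have a1 : u j ≤ u n := hm.monotone (by omega)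
    have a2 : u i < u (n + 1) := hm (by omega)
    omega
  subst hj
  have : u i = u n := by omega
  rw [hm.injective this]

lemma IsUlam.other_rep {u : ℕ → ℕ} (hu : IsUlam u) (i j : ℕ) (hij : i < j) :
    (∃ n, u n = u i + u j) ∨
      ∃ i' j', u i' + u j' = u i + u j ∧ u i' ≠ u i ∧ u i' ≠ u j := by
  have hm := hu.strictMono
  have h0 : 0 < u i := lt_of_lt_of_le (by rw [hu.1]; norm_num) (hm.monotone (Nat.zero_le i))
  have h1 : 2 ≤ u j := by rw [← hu.2.1]; exact hm.monotone (by omega)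
  obtain ⟨n, hn1, hn2, hn3⟩ := hu.exists_idx (u i + u j) (by omega)
  by_cases he : u n = u i + u j
  · exact Or.inl ⟨n, he⟩
  right
  have hjn : j ≤ n := by
    have : u j < u (n + 1) := by omega
    have := hm.lt_iff_lt.mp this
    omega
  by_contra hc
  push Not at hc
  have : u (n + 1) ≤ u i + u j := by
    apply (hu.2.2 n hn1).2
    refine ⟨by omega, (i, j), ⟨hij, hjn, rfl⟩, ?_⟩
    rintro ⟨i', j'⟩ ⟨a1, a2, a3⟩
    simp only at a1 a2 a3
    by_cases h : u i' = u i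
    · have : u j' = u j := by omega
      rw [hm.injective h, hm.injective this]
    · have h2 := hc i' j' a3.symm h
      have h3 : u j' = u i := by omega
      have := hm.injective h2
      have := hm.injective h3
      omega
  omega

lemma IsUlam.bound {u : ℕ → ℕ} (hu : IsUlam u) (a : ℕ) (ha : 200 ≤ a) :
    u (a ^ 3 * 8 ^ a) ≤ 2 ^ (1454 * a ^ 4 * 4 ^ a) := by
  have hm := hu.strictMono
  have hpos : ∀ i, 0 < u i := fun i =>
    lt_of_lt_of_le (by rw [hu.1]; norm_num) (hm.monotone (Nat.zero_le i))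
  have h := count_lower (Set.range (fun i => (u i : ℤ))) ?_ ?_ ?_ a ha
  · by_contra hc
    push Not at hc
    have : win (Set.range (fun i => (u i : ℤ))) (2 ^ (1454 * a ^ 4 * 4 ^ a))
        ⊆ (range (a ^ 3 * 8 ^ a)).image (fun i => (u i : ℤ)) := by
      intro z hz
      obtain ⟨_, h2, i, rfl⟩ := mem_win.mp hz
      refine mem_image.mpr ⟨i, mem_range.mpr ?_, rfl⟩
      apply hm.lt_iff_lt.mp
      have : u i ≤ 2 ^ (1454 * a ^ 4 * 4 ^ a) := by
        simp only at h2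
        exact_mod_cast h2
      omega
    have h1 := card_le_card this
    have h2 : ((range (a ^ 3 * 8 ^ a)).image (fun i => (u i : ℤ))).card ≤ a ^ 3 * 8 ^ a :=
      card_image_le.trans (by simp)
    omega
  · rintro _ ⟨i, rfl⟩
    have := hpos i
    simp only
    omega
  · rintro _ ⟨i, rfl⟩ _ ⟨j, rfl⟩ hne
    simp only at hne ⊢
    have hij : i ≠ j := by rintro rfl; exact hne rfl
    rcases lt_or_gt_of_ne hij with h | h
    · rcases hu.other_rep i j h with ⟨n, hn⟩ | ⟨i', j', h1, h2, h3⟩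
      · exact Or.inl ⟨n, by simp only; omega⟩
      · exact Or.inr ⟨_, ⟨i', rfl⟩, _, ⟨j', rfl⟩, by simp only; omega, by simp only; omega,
          by simp only; omega⟩
    · rcases hu.other_rep j i h with ⟨n, hn⟩ | ⟨i', j', h1, h2, h3⟩
      · exact Or.inl ⟨n, by simp only; omega⟩
      · exact Or.inr ⟨_, ⟨i', rfl⟩, _, ⟨j', rfl⟩, by simp only; omega, by simp only; omega,
          by simp only; omega⟩
  · intro y hy
    obtain ⟨n, hn1, hn2, hn3⟩ := hu.exists_idx y.toNat (by omega)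
    obtain ⟨m, rfl⟩ : ∃ m, n = m + 1 := ⟨n - 1, by omega⟩
    have h1 := hu.succ_le m
    have h2 : u m < u (m + 1) := hm (by omega)
    refine ⟨_, ⟨m + 2, rfl⟩, ?_, ?_⟩
    · simp only
      have : u (m + 1 + 1) = u (m + 2) := rfl
      omega
    · simp only
      omega

theorem growth (u : ℕ → ℕ) (hu : IsUlam u) :
    ∃ C : ℝ, ∃ n₀ : ℕ, ∀ n : ℕ, n₀ ≤ n →
      (u n : ℝ) ≤ Real.exp (C * (n : ℝ) ^ (2 / 3 : ℝ) * Real.log n ^ 2) := by
  refine ⟨24000, 200 ^ 3 * 8 ^ 200 + 1, fun n hn => ?_⟩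
  have hex : ∃ c, n ≤ (c + 1) ^ 3 * 8 ^ (c + 1) := by
    refine ⟨n, ?_⟩
    have h1 : n + 1 ≤ (n + 1) ^ 3 := Nat.le_self_pow (by norm_num) _
    have h2 : (n + 1) ^ 3 * 1 ≤ (n + 1) ^ 3 * 8 ^ (n + 1) :=
      Nat.mul_le_mul_left _ (Nat.one_le_pow _ _ (by norm_num))
    omega
  classical
  obtain ⟨c, hc1, hc2, hc3⟩ : ∃ c, 200 ≤ c ∧ c ^ 3 * 8 ^ c < n ∧ n ≤ (c + 1) ^ 3 * 8 ^ (c + 1) := by
    have hs := Nat.find_spec hex
    have h200 : 200 ≤ Nat.find hex := by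
      by_contra hlt
      have h1 : Nat.find hex + 1 ≤ 200 := by omega
      have : (Nat.find hex + 1) ^ 3 * 8 ^ (Nat.find hex + 1) ≤ 200 ^ 3 * 8 ^ 200 :=
        Nat.mul_le_mul (Nat.pow_le_pow_left h1 3) (Nat.pow_le_pow_right (by norm_num) h1)
      omega
    refine ⟨Nat.find hex, h200, ?_, hs⟩
    have := Nat.find_min hex (m := Nat.find hex - 1) (by omega)
    rw [Nat.sub_add_cancel (by omega)] at this
    omega
  have h1 : u n ≤ 2 ^ (1454 * (c + 1) ^ 4 * 4 ^ (c + 1)) :=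
    (hu.strictMono.monotone hc3).trans (hu.bound (c + 1) (by omega))
  have h2 : (u n : ℝ) ≤ 2 ^ (1454 * (c + 1) ^ 4 * 4 ^ (c + 1)) := by exact_mod_cast h1
  refine h2.trans ?_
  have h3 : (2 : ℝ) ≤ Real.exp 1 := by
    have := Real.add_one_le_exp (1 : ℝ); linarith
  refine (pow_le_pow_left₀ (by norm_num) h3 _).trans ?_
  rw [← Real.exp_nat_mul, mul_one, Real.exp_le_exp]
  have hcr : (200 : ℝ) ≤ c := by exact_mod_cast hc1
  have hnr : (c : ℝ) ^ 3 * 8 ^ c ≤ n := by exact_mod_cast hc2.le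
  have h4 : (c : ℝ) ^ 2 * 4 ^ c ≤ (n : ℝ) ^ (2 / 3 : ℝ) := by
    have e : (c : ℝ) ^ 2 * 4 ^ c = ((c : ℝ) ^ 3 * 8 ^ c) ^ (2 / 3 : ℝ) := by
      have e1 : (c : ℝ) ^ 3 * 8 ^ c = ((c : ℝ) * 2 ^ c) ^ 3 := by
        rw [mul_pow, ← pow_mul, mul_comm c 3, pow_mul]; norm_num
      have e2 : (c : ℝ) ^ 2 * 4 ^ c = ((c : ℝ) * 2 ^ c) ^ 2 := by
        rw [mul_pow, ← pow_mul, mul_comm c 2, pow_mul]; norm_num
      rw [e1, e2, ← Real.rpow_natCast, ← Real.rpow_natCast _ 3, ← Real.rpow_mul (by positivity)]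
      norm_num
    rw [e]
    exact Real.rpow_le_rpow (by positivity) hnr (by norm_num)
  have h5 : 2 * (c : ℝ) ≤ Real.log n := by
    have h8 : (8 : ℝ) ^ c ≤ n := by
      have : (1 : ℝ) ≤ (c : ℝ) ^ 3 := one_le_pow₀ (by linarith)
      have h' : (0 : ℝ) < 8 ^ c := by positivity
      nlinarith
    have h9 := Real.log_le_log (by positivity) h8
    rw [Real.log_pow] at h9
    have h10 : (2 : ℝ) ≤ Real.log 8 := by
      have : Real.log 8 = 3 * Real.log 2 := by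
        rw [show (8 : ℝ) = 2 ^ 3 by norm_num, Real.log_pow]; norm_num
      have := Real.log_two_gt_d9
      linarith
    nlinarith
  push_cast
  have h6 : ((c : ℝ) + 1) ^ 2 ≤ Real.log n ^ 2 := pow_le_pow_left₀ (by linarith) (by linarith) 2
  have h7 : ((c : ℝ) + 1) ^ 2 ≤ 4 * (c : ℝ) ^ 2 := by nlinarith
  have h8 : ((c : ℝ) + 1) ^ 2 * 4 ^ (c + 1) ≤ 16 * (n : ℝ) ^ (2 / 3 : ℝ) := by
    rw [pow_succ (4 : ℝ) c]
    have h' : (0 : ℝ) < 4 ^ c := by positivity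
    nlinarith
  have h9 : (0 : ℝ) ≤ (n : ℝ) ^ (2 / 3 : ℝ) := by positivity
  calc 1454 * ((c : ℝ) + 1) ^ 4 * 4 ^ (c + 1)
      = 1454 * (((c : ℝ) + 1) ^ 2 * 4 ^ (c + 1)) * ((c : ℝ) + 1) ^ 2 := by ring
    _ ≤ 1454 * (16 * (n : ℝ) ^ (2 / 3 : ℝ)) * Real.log n ^ 2 := by gcongr
    _ ≤ 24000 * (n : ℝ) ^ (2 / 3 : ℝ) * Real.log n ^ 2 := by
        have : (0 : ℝ) ≤ (n : ℝ) ^ (2 / 3 : ℝ) * Real.log n ^ 2 := by positivity
        nlinarith

end Pool.Agent.Lib.MP_0f05cd_nt
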