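import Pool.Agent.Lib.MP_0f05cd_nt.Core

namespace Pool.Agent.Lib.MP_0f05cd_nt

open Finset

lemma exists_base (U : Set ℤ) (y0 : ℤ) (hy0 : 1 ≤ y0)
    (hgap : ∀ y, y0 ≤ y → ∃ u ∈ U, y < u ∧ u ≤ 2 * y) (H : ℕ) :
    ∃ b : ℕ → ℤ, (∀ i, b i ∈ U ∧ b i ≤ 2 * y0 * (2 * ((H : ℤ) + 1)) ^ i) ∧
      ∀ k, ∀ c : ℕ → ℤ, (∀ i, |c i| ≤ H) → ∑ i ∈ range k, c i * b i = 0 →
        ∀ i ∈ range k, c i = 0 := by
  choose! nx hnx using hgap
  let b : ℕ → ℤ := fun i => Nat.rec (nx y0) (fun _ v => nx (((H : ℤ) + 1) * v)) i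
  have hb0 : b 0 = nx y0 := rfl
  have hbs : ∀ i, b (i + 1) = nx (((H : ℤ) + 1) * b i) := fun i => rfl
  have hH : (0 : ℤ) ≤ H := Int.natCast_nonneg H
  have h1 : ∀ i, y0 ≤ b i := by
    intro i
    induction i with
    | zero => rw [hb0]; exact (hnx y0 le_rfl).2.1.le
    | succ i ih =>
      have : y0 ≤ ((H : ℤ) + 1) * b i := by nlinarith
      rw [hbs]
      exact this.trans (hnx _ this).2.1.le
  have h2 : ∀ i, y0 ≤ ((H : ℤ) + 1) * b i := fun i => by have := h1 i; nlinarith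
  have h3 : ∀ i, (H : ℤ) * ∑ j ∈ range i, b j < b i := by
    intro i
    induction i with
    | zero => have := h1 0; simp; omega
    | succ i ih =>
      rw [sum_range_succ, hbs]
      have := (hnx _ (h2 i)).2.1
      nlinarith
  refine ⟨b, fun i => ?_, ?_⟩
  · induction i with
    | zero => rw [hb0]; exact ⟨(hnx y0 le_rfl).1, by simpa using (hnx y0 le_rfl).2.2⟩
    | succ i ih =>
      rw [hbs]
      refine ⟨(hnx _ (h2 i)).1, (hnx _ (h2 i)).2.2.trans ?_⟩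
      rw [pow_succ]
      nlinarith [ih.2]
  · intro k
    induction k with
    | zero => intro c _ _ i hi; simp at hi
    | succ k ih =>
      intro c hc hs
      rw [sum_range_succ] at hs
      have hle : |∑ i ∈ range k, c i * b i| ≤ (H : ℤ) * ∑ j ∈ range k, b j := by
        rw [mul_sum]
        refine (abs_sum_le_sum_abs _ _).trans (sum_le_sum fun i _ => ?_)
        rw [abs_mul, abs_of_nonneg (by have := h1 i; omega : 0 ≤ b i)]
        exact mul_le_mul_of_nonneg_right (hc i) (by have := h1 i; omega)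
      have hck : c k = 0 := by
        by_contra hne
        have e : ∑ i ∈ range k, c i * b i = -(c k * b k) := by omega
        rw [e, abs_neg, abs_mul, abs_of_nonneg (by have := h1 k; omega : 0 ≤ b k)] at hle
        have : 1 ≤ |c k| := Int.one_le_abs hne
        have := h3 k
        have := h1 k
        nlinarith
      rw [hck, zero_mul, add_zero] at hs
      intro i hi
      rcases Nat.lt_succ_iff_lt_or_eq.mp (mem_range.mp hi) with h | h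
      · exact ih c hc hs i (mem_range.mpr h)
      · rw [h, hck]

lemma pow4_le (a : ℕ) (ha : 16 ≤ a) : a ^ 4 ≤ 2 ^ a := by
  induction a, ha using Nat.le_induction with
  | base => norm_num
  | succ a ha ih =>
    have h1 : 16 * (a + 1) ≤ 17 * a := by omega
    have h2 : (16 * (a + 1)) ^ 4 ≤ (17 * a) ^ 4 := Nat.pow_le_pow_left h1 4
    rw [mul_pow, mul_pow] at h2
    rw [pow_succ 2 a]
    omega

theorem count_lower (U : Set ℤ) (hpos : ∀ u ∈ U, 1 ≤ u)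
    (hU : ∀ a ∈ U, ∀ b ∈ U, a ≠ b → a + b ∈ U ∨ ∃ x ∈ U, ∃ y ∈ U, x + y = a + b ∧ x ≠ a ∧ x ≠ b)
    (hgap : ∀ y, 2 ≤ y → ∃ u ∈ U, y < u ∧ u ≤ 2 * y) (a : ℕ) (ha : 200 ≤ a) :
    a ^ 3 * 8 ^ a < (win U (2 ^ (1454 * a ^ 4 * 4 ^ a))).card := by
  by_contra hc
  push Not at hc
  have h4 := pow4_le a (by omega)
  obtain ⟨τ, hτ⟩ : ∃ τ, τ = 2 ^ a := ⟨_, rfl⟩
  have e4 : 4 ^ a = τ ^ 2 := by rw [hτ, ← pow_mul, mul_comm, pow_mul]; norm_num
  have e8 : 8 ^ a = τ ^ 3 := by rw [hτ, ← pow_mul, mul_comm, pow_mul]; norm_num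
  rw [e4, e8] at hc
  rw [← hτ] at h4
  have ha3 : 200 * a ^ 3 ≤ τ := le_trans (by rw [pow_succ a 3, mul_comm]; gcongr) h4
  have ha1 : 1 ≤ a := by omega
  have ha2 : a ≤ a ^ 3 := Nat.le_self_pow (by norm_num) a
  have hτ1 : 1 ≤ τ := by omega
  obtain ⟨b, hb1, hb2⟩ := exists_base U 2 (by norm_num) hgap (2 * (4 * (4 * a + 2) + 2))
  set k := 1452 * (a ^ 3 * τ ^ 2) with hk
  have hq : (2 * (((2 * (4 * (4 * a + 2) + 2) : ℕ) : ℤ) + 1)) ≤ 2 ^ a := by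
    have : 2 * (2 * (4 * (4 * a + 2) + 2) + 1) ≤ 2 ^ a := by omega
    exact_mod_cast this
  have hP : 0 < a ^ 3 * τ ^ 2 := by positivity
  have := core U hpos hU k (4 * a + 2) (3 * a * (a * τ ^ 2)) τ (a ^ 3 * τ ^ 2)
    (700 * (a ^ 3 * τ ^ 2)) (1452 * a ^ 2 * τ) (a ^ 3 * τ ^ 3) (a * τ ^ 2) b
    (2 ^ (2 + a * k)) (by positivity) ?_ ?_ ?_ ?_ ?_ ?_ ?_ ?_
  · have e1 : a * τ ^ 2 * (1452 * a ^ 2 * τ + 1) = k * τ + a * τ ^ 2 := by rw [hk]; ring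
    have : 0 < a * τ ^ 2 := by positivity
    omega
  · intro i hi
    refine ⟨(hb1 i).1, (hb1 i).2.trans ?_⟩
    rw [pow_add, pow_mul]
    have : (2 * (((2 * (4 * (4 * a + 2) + 2) : ℕ) : ℤ) + 1)) ^ i ≤ (2 ^ a) ^ k :=
      (pow_le_pow_left₀ (by positivity) hq i).trans
        (pow_le_pow_right₀ (one_le_pow₀ (by norm_num)) hi.le)
    linarith
  · intro c hc'
    apply hb2 k c
    intro i
    have := hc' i
    push_cast at this ⊢
    linarith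
  · refine le_trans (card_le_card (win_mono ?_)) hc
    rw [← pow_add]
    apply pow_le_pow_right₀ (by norm_num)
    have e1 : a * k = 1452 * (a ^ 4 * τ ^ 2) := by rw [hk]; ring
    have e2 : 1454 * a ^ 4 * τ ^ 2 = 1454 * (a ^ 4 * τ ^ 2) := by ring
    have h1 : a * τ ^ 2 ≤ a ^ 4 * τ ^ 2 :=
      Nat.mul_le_mul_right _ (Nat.le_self_pow (by norm_num) a)
    have h2 : a * 1 ≤ a * τ ^ 2 := Nat.mul_le_mul_left _ (Nat.one_le_pow _ _ hτ1)
    omega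
  · have e1 : 2 ^ (4 * a + 2) = 4 * (τ * τ ^ 3) := by
      rw [pow_add, mul_comm 4 a, pow_mul, ← hτ]; ring
    have h1 : a ^ 3 * τ ^ 3 ≤ τ * τ ^ 3 := Nat.mul_le_mul_right _ (by omega)
    have h2 : 0 < τ * τ ^ 3 := by positivity
    omega
  · rw [pow_mul 2 (3 * a)]
    apply Nat.pow_lt_pow_left _ (by positivity)
    have e1 : 2 ^ (3 * a) = τ * τ ^ 2 := by rw [mul_comm 3 a, pow_mul, ← hτ]; ring
    have h1 : (4 * (4 * a + 2) + 2) * (3 * a * (a * τ ^ 2)) ≤ (17 * a) * (3 * a * (a * τ ^ 2)) :=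
      Nat.mul_le_mul_right _ (by omega)
    have e2 : (17 * a) * (3 * a * (a * τ ^ 2)) = 51 * (a ^ 3 * τ ^ 2) := by ring
    have h2 : (200 * a ^ 3) * τ ^ 2 ≤ τ * τ ^ 2 := Nat.mul_le_mul_right _ ha3
    have e3 : (200 * a ^ 3) * τ ^ 2 = 200 * (a ^ 3 * τ ^ 2) := by ring
    omega
  · have h1 : (4 * (4 * a + 2) + 2) * (3 * a * (a * τ ^ 2)) ≤ (17 * a) * (3 * a * (a * τ ^ 2)) :=
      Nat.mul_le_mul_right _ (by omega)
    have e2 : (17 * a) * (3 * a * (a * τ ^ 2)) = 51 * (a ^ 3 * τ ^ 2) := by ring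
    omega
  · have e1 : τ * (a ^ 3 * τ ^ 2 + 1) = a ^ 3 * τ ^ 3 + τ := by ring
    omega
  · have h1 : 4 * a + 2 ≤ 5 * a := by omega
    have h0 : a * 1 ≤ a * (a * τ) := Nat.mul_le_mul_left _ (Nat.mul_pos ha1 hτ1)
    have h2 : 4 * a + 2 + 1452 * a ^ 2 * τ ≤ 2904 * (a * (a * τ)) := by
      have : 1452 * a ^ 2 * τ = 1452 * (a * (a * τ)) := by ring
      omega
    have h3 : 32 * (a ^ 3 * τ ^ 3) * (4 * a + 2) * (4 * a + 2 + 1452 * a ^ 2 * τ)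
        ≤ 32 * (a ^ 3 * τ ^ 3) * (5 * a) * (2904 * (a * (a * τ))) := by gcongr
    have e1 : 32 * (a ^ 3 * τ ^ 3) * (5 * a) * (2904 * (a * (a * τ)))
        = 464640 * ((a ^ 3 * τ ^ 3) * (a ^ 3 * τ)) := by ring
    have e2 : (700 * (a ^ 3 * τ ^ 2)) ^ 2 = 490000 * ((a ^ 3 * τ ^ 3) * (a ^ 3 * τ)) := by ring
    have h4 : (a ^ 3 * τ ^ 3) * 1 ≤ (a ^ 3 * τ ^ 3) * (a ^ 3 * τ) :=
      Nat.mul_le_mul_left _ (Nat.mul_pos (by positivity) hτ1)
    have h5 : 0 < a ^ 3 * τ ^ 3 := by positivity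
    omega

end Pool.Agent.Lib.MP_0f05cd_nt
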