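import Mathlib

namespace Pool.Agent.Lib.MP_0f05cd_nt

open Finset

/-- integer combinations of the generators with coefficients bounded by m -/
noncomputable def sp : List ℤ → ℕ → Finset ℤ
  | [], _ => {0}
  | g :: gs, m => image₂ (fun μ s => μ * g + s) (Icc (-(m : ℤ)) m) (sp gs m)

lemma card_sp (gs : List ℤ) (m : ℕ) : (sp gs m).card ≤ (2 * m + 1) ^ gs.length := by
  induction gs with
  | nil => simp [sp]
  | cons g gs ih =>
    simp only [sp, List.length_cons]
    refine (card_image₂_le _ _ _).trans ?_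
    have : (Icc (-(m : ℤ)) m).card = 2 * m + 1 := by
      rw [Int.card_Icc]; omega
    rw [this, pow_succ, mul_comm]
    exact Nat.mul_le_mul_right _ ih

lemma mem_sp_cons {g : ℤ} {gs : List ℤ} {m : ℕ} {z : ℤ} :
    z ∈ sp (g :: gs) m ↔ ∃ μ : ℤ, -(m : ℤ) ≤ μ ∧ μ ≤ m ∧ ∃ s ∈ sp gs m, μ * g + s = z := by
  simp only [sp, mem_image₂, mem_Icc]
  constructor
  · rintro ⟨μ, ⟨h1, h2⟩, s, hs, h⟩
    exact ⟨μ, h1, h2, s, hs, h⟩
  · rintro ⟨μ, h1, h2, s, hs, h⟩
    exact ⟨μ, ⟨h1, h2⟩, s, hs, h⟩

lemma sp_zero (gs : List ℤ) (m : ℕ) : (0 : ℤ) ∈ sp gs m := by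
  induction gs with
  | nil => simp [sp]
  | cons g gs ih => exact mem_sp_cons.mpr ⟨0, by omega, by omega, 0, ih, by simp⟩

lemma sp_add {gs : List ℤ} {m m' : ℕ} {a b : ℤ} (ha : a ∈ sp gs m) (hb : b ∈ sp gs m') :
    a + b ∈ sp gs (m + m') := by
  induction gs generalizing a b with
  | nil => simp [sp] at *; omega
  | cons g gs ih =>
    obtain ⟨μ, h1, h2, s, hs, rfl⟩ := mem_sp_cons.mp ha
    obtain ⟨ν, h3, h4, t, ht, rfl⟩ := mem_sp_cons.mp hb
    exact mem_sp_cons.mpr ⟨μ + ν, by push_cast; omega, by push_cast; omega, s + t, ih hs ht,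
      by ring⟩

lemma sp_mono {gs : List ℤ} {m m' : ℕ} (h : m ≤ m') {a : ℤ} (ha : a ∈ sp gs m) :
    a ∈ sp gs m' := by
  have := sp_add ha (sp_zero gs (m' - m))
  rwa [add_zero, Nat.add_sub_cancel' h] at this

lemma sp_neg {gs : List ℤ} {m : ℕ} {a : ℤ} (ha : a ∈ sp gs m) : -a ∈ sp gs m := by
  induction gs generalizing a with
  | nil => simp [sp] at *; omega
  | cons g gs ih =>
    obtain ⟨μ, h1, h2, s, hs, rfl⟩ := mem_sp_cons.mp ha
    exact mem_sp_cons.mpr ⟨-μ, by omega, by omega, -s, ih hs, by ring⟩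

lemma sp_nat_mul {gs : List ℤ} {a : ℤ} (ha : a ∈ sp gs 1) (c : ℕ) : (c : ℤ) * a ∈ sp gs c := by
  induction c with
  | zero => simpa using sp_zero gs 0
  | succ c ih =>
    have := sp_add ih ha
    push_cast
    rwa [add_mul, one_mul]

lemma sp_mul {gs : List ℤ} {a : ℤ} (ha : a ∈ sp gs 1) (c : ℤ) : c * a ∈ sp gs c.natAbs := by
  rcases Int.natAbs_eq c with h | h
  · have := sp_nat_mul ha c.natAbs
    rw [← h] at this
    exact this
  · have := sp_neg (sp_nat_mul ha c.natAbs)
    rw [← neg_mul, ← h] at this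
    exact this

lemma sp_sum {gs : List ℤ} (I : Finset ℕ) (t c : ℕ → ℤ) (ht : ∀ i ∈ I, t i ∈ sp gs 1) :
    ∑ i ∈ I, c i * t i ∈ sp gs (∑ i ∈ I, (c i).natAbs) := by
  induction I using Finset.induction_on with
  | empty => simpa using sp_zero gs 0
  | insert j I hj ih =>
    rw [sum_insert hj, sum_insert hj]
    exact sp_add (sp_mul (ht j (mem_insert_self _ _)) _)
      (ih (fun i hi => ht i (mem_insert_of_mem hi)))

lemma sp_cons_of {g : ℤ} {gs : List ℤ} {m : ℕ} {a : ℤ} (ha : a ∈ sp gs m) :
    a ∈ sp (g :: gs) m :=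
  mem_sp_cons.mpr ⟨0, by omega, by omega, a, ha, by simp⟩

lemma sp_cons_add {g : ℤ} {gs : List ℤ} {a : ℤ} (ha : a ∈ sp gs 1) :
    a + g ∈ sp (g :: gs) 1 :=
  mem_sp_cons.mpr ⟨1, by omega, by omega, a, ha, by ring⟩

lemma card_support_le (I : Finset ℕ) (c : ℕ → ℤ) :
    (I.filter (fun i => c i ≠ 0)).card ≤ ∑ i ∈ I, (c i).natAbs := by
  rw [card_eq_sum_ones, sum_filter]
  apply sum_le_sum
  intro i _
  split_ifs with h
  · omega
  · omega

/-- most of a strongly dissociated family stays dissociated modulo a short span -/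
lemma exists_good (k h L0 : ℕ) (b : ℕ → ℤ) (gs : List ℤ)
    (hb : ∀ c : ℕ → ℤ, (∀ i, |c i| ≤ 2 * h) → ∑ i ∈ range k, c i * b i = 0 →
      ∀ i ∈ range k, c i = 0)
    (hL : (2 * (h * L0) + 1) ^ gs.length < 2 ^ L0) :
    ∃ G ⊆ range k, k ≤ G.card + h * L0 ∧ ∀ c : ℕ → ℤ, ∑ i ∈ G, (c i).natAbs ≤ h →
      ∑ i ∈ G, c i * b i ∈ sp gs h → ∀ i ∈ G, c i = 0 := by
  classical
  by_contra hcon
  push Not at hcon
  have key : ∀ L ≤ L0, ∃ D : Finset ℕ, D.card ≤ h * L ∧ ∃ S : Finset ℤ, S.card = 2 ^ L ∧
      ∀ s ∈ S, s ∈ sp gs (h * L) ∧ ∃ c : ℕ → ℤ, (∀ i, |c i| ≤ h) ∧ (∀ i, i ∉ D → c i = 0) ∧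
        s = ∑ i ∈ range k, c i * b i := by
    intro L
    induction L with
    | zero =>
      intro _
      refine ⟨∅, by simp, {0}, by simp, ?_⟩
      intro s hs
      rw [mem_singleton] at hs
      subst hs
      exact ⟨sp_zero _ _, fun _ => 0, by simp, by simp, by simp⟩
    | succ L ih =>
      intro hL1
      obtain ⟨D, hD, S, hS, hSp⟩ := ih (by omega)
      have hG : k ≤ (range k \ D).card + h * L0 := by
        have h1 : (range k).card ≤ (range k \ D).card + D.card := card_le_card_sdiff_add_card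
        have h2 : h * L ≤ h * L0 := Nat.mul_le_mul_left _ (by omega)
        rw [card_range] at h1
        omega
      obtain ⟨c', hc1, hc2, i0, hi0, hi0'⟩ := hcon (range k \ D) sdiff_subset hG
      set G := range k \ D with hGdef
      set c'' : ℕ → ℤ := fun i => if i ∈ G then c' i else 0 with hc''
      set σ : ℤ := ∑ i ∈ G, c' i * b i with hσ
      have hσ' : σ = ∑ i ∈ range k, c'' i * b i := by
        rw [hσ, ← sum_subset (s₁ := G) sdiff_subset]
        · apply sum_congr rfl
          intro i hi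
          simp [hc'', hi]
        · intro i _ hi
          simp [hc'', hi]
      have hbd : ∀ i, |c'' i| ≤ h := by
        intro i
        simp only [hc'']
        split_ifs with hi
        · have : (c' i).natAbs ≤ ∑ i ∈ G, (c' i).natAbs :=
            single_le_sum (f := fun i => (c' i).natAbs) (fun _ _ => Nat.zero_le _) hi
          rw [← Int.natCast_natAbs]
          exact_mod_cast this.trans hc1
        · simp
      have hD0 : ∀ i ∈ D, c'' i = 0 := by
        intro i hi
        simp [hc'', hGdef, hi]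
      refine ⟨D ∪ G.filter (fun i => c' i ≠ 0), ?_, S ∪ S.image (· + σ), ?_, ?_⟩
      · have := card_support_le G c'
        have h2 := card_union_le D (G.filter (fun i => c' i ≠ 0))
        rw [Nat.mul_succ]
        omega
      · rw [card_union_of_disjoint, card_image_of_injective _ (add_left_injective σ), hS]
        · ring
        · rw [disjoint_left]
          intro s hs hs'
          obtain ⟨s', hs'', hss⟩ := mem_image.mp hs'
          obtain ⟨_, c1, hc1b, hc1D, hc1s⟩ := hSp s hs
          obtain ⟨_, c2, hc2b, hc2D, hc2s⟩ := hSp s' hs''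
          have hz := hb (fun i => c2 i + c'' i - c1 i) ?_ ?_ i0 (mem_sdiff.mp hi0).1
          · have hnD : i0 ∉ D := (mem_sdiff.mp hi0).2
            rw [hc1D i0 hnD, hc2D i0 hnD] at hz
            simp [hc'', hi0] at hz
            exact hi0' hz
          · intro i
            by_cases hi : i ∈ D
            · rw [hD0 i hi]
              have := hc1b i; have := hc2b i
              rw [abs_le] at *
              constructor <;> omega
            · rw [hc1D i hi, hc2D i hi]
              have := hbd i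
              rw [abs_le] at *
              constructor <;> omega
          · simp only [add_mul, sub_mul, sum_add_distrib, sum_sub_distrib]
            rw [← hc1s, ← hc2s, ← hσ', hss, sub_self]
      · intro s hs
        rcases mem_union.mp hs with hs | hs
        · obtain ⟨h1, c1, hc1b, hc1D, hc1s⟩ := hSp s hs
          refine ⟨sp_mono (Nat.mul_le_mul_left _ (by omega)) h1, c1, hc1b, ?_, hc1s⟩
          intro i hi
          exact hc1D i (fun h => hi (mem_union_left _ h))
        · obtain ⟨s', hs', rfl⟩ := mem_image.mp hs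
          obtain ⟨h1, c1, hc1b, hc1D, hc1s⟩ := hSp s' hs'
          refine ⟨by rw [Nat.mul_succ]; exact sp_add h1 hc2, fun i => c1 i + c'' i, ?_, ?_, ?_⟩
          · intro i
            by_cases hi : i ∈ D
            · simp only [hD0 i hi, add_zero]; exact hc1b i
            · simp only [hc1D i hi, zero_add]; exact hbd i
          · intro i hi
            rw [mem_union, not_or] at hi
            simp only [hc1D i hi.1, zero_add, hc'']
            split_ifs with hiG
            · by_contra hne
              exact hi.2 (mem_filter.mpr ⟨hiG, hne⟩)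
            · rfl
          · simp only [add_mul, sum_add_distrib]
            rw [← hc1s, ← hσ']
  obtain ⟨D, _, S, hS, hSp⟩ := key L0 le_rfl
  have : S.card ≤ (sp gs (h * L0)).card := card_le_card (fun s hs => (hSp s hs).1)
  have := card_sp gs (h * L0)
  omega

end Pool.Agent.Lib.MP_0f05cd_nt
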